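import Mathlib

open Cardinal Set

namespace Pool.Agent.Lib.MP_4cb3df_gt

universe u

/-- The underlying set of the `<κ`-box power: all functions `I → K`. -/
def BoxPower (_κ : Cardinal.{u}) (I K : Type u) : Type u := I → K

/-- `E(x restricted to D)`: all total functions `I → K` that agree with `x` on `D`. -/
def basicSet {κ : Cardinal.{u}} {I K : Type u} (x : BoxPower κ I K) (D : Set I) :
    Set (BoxPower κ I K) :=
  {y | ∀ i ∈ D, y i = x i}

/-- The `<κ`-box topology on the set of all functions `I → K`, where `K` is discrete: it is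
generated by the sets `basicSet x D` with `D` of cardinality less than `κ`. -/
instance boxTopology (κ : Cardinal.{u}) (I K : Type u) : TopologicalSpace (BoxPower κ I K) :=
  TopologicalSpace.generateFrom
    {U | ∃ (x : BoxPower κ I K) (D : Set I), #D < κ ∧ U = basicSet x D}

/-- A sequence of subsets of a space is discrete if every point has a neighbourhood that meets
at most one member of the sequence. -/
def IsDiscreteSeq {X : Type u} [TopologicalSpace X] (F : ℕ → Set X) : Prop :=
  ∀ x : X, ∃ V : Set X, IsOpen V ∧ x ∈ V ∧ {n : ℕ | (V ∩ F n).Nonempty}.Subsingleton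

/-- A space is metanormal if every discrete sequence of closed sets has a point-finite open
expansion. -/
def Metanormal (X : Type u) [TopologicalSpace X] : Prop :=
  ∀ F : ℕ → Set X, (∀ n, IsClosed (F n)) → IsDiscreteSeq F →
    ∃ U : ℕ → Set X, (∀ n, IsOpen (U n)) ∧ (∀ n, F n ⊆ U n) ∧ ∀ x, {n : ℕ | x ∈ U n}.Finite

section topology

variable {κ : Cardinal.{u}} {I K : Type u}

theorem mem_basicSet_self (x : BoxPower κ I K) (D : Set I) : x ∈ basicSet x D :=
  fun _ _ => rfl

theorem isOpen_basicSet (x : BoxPower κ I K) (D : Set I) (hD : #D < κ) :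
    IsOpen (basicSet x D) :=
  TopologicalSpace.isOpen_generateFrom_of_mem ⟨x, D, hD, rfl⟩

theorem exists_basicSet_subset (hκ : ℵ₀ ≤ κ) {U : Set (BoxPower κ I K)}
    (hU : IsOpen U) {x : BoxPower κ I K} (hx : x ∈ U) :
    ∃ D : Set I, #D < κ ∧ basicSet x D ⊆ U := by
  induction hU with
  | basic s hs =>
    obtain ⟨z, D, hD, rfl⟩ := hs
    refine ⟨D, hD, fun y hy i hi => ?_⟩
    rw [hy i hi, hx i hi]
  | univ => exact ⟨∅, by simpa using lt_of_lt_of_le aleph0_pos hκ, fun _ _ => trivial⟩
  | inter s t _ _ ihs iht =>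
    obtain ⟨D, hD, hDs⟩ := ihs hx.1
    obtain ⟨D', hD', hDt⟩ := iht hx.2
    refine ⟨D ∪ D', ?_, fun y hy => ⟨hDs fun i hi => hy i (Or.inl hi),
      hDt fun i hi => hy i (Or.inr hi)⟩⟩
    exact lt_of_le_of_lt (mk_union_le D D') (add_lt_of_lt hκ hD hD')
  | sUnion S _ ih =>
    obtain ⟨s, hs, hxs⟩ := hx
    obtain ⟨D, hD, hDs⟩ := ih s hs hxs
    exact ⟨D, hD, hDs.trans (subset_sUnion_of_mem hs)⟩

/-- For infinite `κ` the topology is the one of the problem: the sets `basicSet x D` with
`D` of cardinality less than `κ` form a neighbourhood base at `x`. -/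
theorem mem_nhds_iff_box (hκ : ℵ₀ ≤ κ) (x : BoxPower κ I K) (V : Set (BoxPower κ I K)) :
    V ∈ nhds x ↔ ∃ D : Set I, #D < κ ∧ basicSet x D ⊆ V := by
  constructor
  · intro h
    obtain ⟨U, hUV, hU, hx⟩ := _root_.mem_nhds_iff.1 h
    obtain ⟨D, hD, hDU⟩ := exists_basicSet_subset hκ hU hx
    exact ⟨D, hD, hDU.trans hUV⟩
  · rintro ⟨D, hD, hDV⟩
    exact _root_.mem_nhds_iff.2 ⟨_, hDV, isOpen_basicSet x D hD, mem_basicSet_self x D⟩

end topology

end Pool.Agent.Lib.MP_4cb3df_gt
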