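import Pool.Agent.Lib.MP_4cb3df_gt.Defs

open Cardinal Set

namespace Pool.Agent.Lib.MP_4cb3df_gt

universe u

section discrete

variable {κ : Cardinal.{u}} {I K : Type u}

/-- The closed sets of the example: every value except possibly `v n` is taken at most once. -/
def closedSet (κ : Cardinal.{u}) (I : Type u) {K : Type u} (v : ℕ → K) (n : ℕ) :
    Set (BoxPower κ I K) :=
  {x | ∀ a b, x a = x b → x a ≠ v n → a = b}

theorem mk_pair_lt (hκ : ℵ₀ ≤ κ) (a b : I) : #({a, b} : Set I) < κ :=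
  lt_of_lt_of_le ((Set.toFinite ({a, b} : Set I)).lt_aleph0) hκ

theorem isClosed_closedSet (hκ : ℵ₀ ≤ κ) (v : ℕ → K) (n : ℕ) :
    IsClosed (closedSet κ I v n) := by
  rw [← isOpen_compl_iff, isOpen_iff_forall_mem_open]
  intro x hx
  simp only [closedSet, mem_compl_iff, mem_ofPred_eq, not_forall] at hx
  obtain ⟨a, b, hab, hav, hne⟩ := hx
  refine ⟨basicSet x {a, b}, ?_, isOpen_basicSet x _ (mk_pair_lt hκ a b),
    mem_basicSet_self x _⟩
  intro y hy hy'
  have ha : y a = x a := hy a (by simp)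
  have hb : y b = x b := hy b (by simp)
  exact hne (hy' a b (by rw [ha, hb, hab]) (by rw [ha]; exact hav))

theorem isDiscreteSeq_closedSet (hκ : ℵ₀ ≤ κ) (hKI : #K < #I) {v : ℕ → K}
    (hv : Function.Injective v) : IsDiscreteSeq (closedSet κ I v) := by
  intro x
  have hx : ¬ Function.Injective x := fun h => absurd (mk_le_of_injective h) (not_le.2 hKI)
  simp only [Function.Injective, not_forall] at hx
  obtain ⟨a, b, hab, hne⟩ := hx
  refine ⟨basicSet x {a, b}, isOpen_basicSet x _ (mk_pair_lt hκ a b),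
    mem_basicSet_self x _, ?_⟩
  have key : ∀ n, (basicSet x {a, b} ∩ closedSet κ I v n).Nonempty → x a = v n := by
    rintro n ⟨y, hy, hy'⟩
    have ha : y a = x a := hy a (by simp)
    have hb : y b = x b := hy b (by simp)
    by_contra hcon
    exact hne (hy' a b (by rw [ha, hb, hab]) (by rw [ha]; exact hcon))
  intro n hn m hm
  exact hv ((key n hn).symm.trans (key m hm))

end discrete

section chain

variable {κ : Cardinal.{u}} {I K : Type u}

/-- `x` extends the (graph of a) partial function `S`. -/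
def Extends (x : I → K) (S : Set (I × K)) : Prop := ∀ p ∈ S, x p.1 = p.2

/-- The partial function `S` is good for `U`: off every small set `Z` there is a small partial
function (the restriction of `g` to `H`) that together with `S` forces membership in `U`. -/
def Good (κ : Cardinal.{u}) (U : Set (I → K)) (S : Set (I × K)) : Prop :=
  ∀ Z : Set I, #Z ≤ κ → ∃ (H : Set I) (g : I → K), #H ≤ κ ∧ Disjoint H Z ∧
    ∀ x : I → K, Extends x S → (∀ a ∈ H, x a = g a) → x ∈ U

theorem exists_bad (U : Set (I → K)) (S : Set (I × K)) :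
    ∃ Z : Set I, #Z ≤ κ ∧ (¬ Good κ U S → ∀ (H : Set I) (g : I → K), #H ≤ κ → Disjoint H Z →
      ∃ x : I → K, Extends x S ∧ (∀ a ∈ H, x a = g a) ∧ x ∉ U) := by
  by_cases h : Good κ U S
  · exact ⟨∅, by simp, fun h' => absurd h h'⟩
  · have h' := h
    simp only [Good, not_forall] at h'
    obtain ⟨Z, hZ, hbad⟩ := h'
    refine ⟨Z, hZ, fun _ H g hH hd => ?_⟩
    by_contra hcon
    refine hbad ⟨H, g, hH, hd, fun x hx hxg => ?_⟩
    by_contra hxU
    exact hcon ⟨x, hx, hxg, hxU⟩

/-- A witness that `S` is not good for `U`. -/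
noncomputable def badSet (κ : Cardinal.{u}) (U : Set (I → K)) (S : Set (I × K)) : Set I :=
  (exists_bad (κ := κ) U S).choose

theorem mk_badSet_le (U : Set (I → K)) (S : Set (I × K)) : #(badSet κ U S) ≤ κ :=
  (exists_bad (κ := κ) U S).choose_spec.1

theorem badSet_spec {U : Set (I → K)} {S : Set (I × K)} (h : ¬ Good κ U S) (H : Set I)
    (g : I → K) (hH : #H ≤ κ) (hd : Disjoint H (badSet κ U S)) :
    ∃ x : I → K, Extends x S ∧ (∀ a ∈ H, x a = g a) ∧ x ∉ U :=
  (exists_bad (κ := κ) U S).choose_spec.2 h H g hH hd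

/-- The union of the witnesses for a sequence of sets. -/
noncomputable def badUnion (κ : Cardinal.{u}) (U : ℕ → Set (I → K)) (S : Set (I × K)) : Set I :=
  ⋃ n, badSet κ (U n) S

theorem mk_badUnion_le (hκ : ℵ₀ ≤ κ) (U : ℕ → Set (I → K)) (S : Set (I × K)) :
    #(badUnion κ U S) ≤ κ := by
  have h1 := Cardinal.mk_iUnion_le_sum_mk_lift (f := fun n => badSet κ (U n) S)
  rw [Cardinal.lift_uzero] at h1
  refine h1.trans ((Cardinal.sum_le_sum _ (fun _ => κ) fun n => mk_badSet_le (U n) S).trans ?_)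
  rw [Cardinal.sum_const, Cardinal.mk_nat, Cardinal.lift_aleph0, Cardinal.lift_uzero,
    Cardinal.aleph0_mul_eq hκ]

/-- One step of the construction: define the partial injection on the new points, with values
in the `i`-th piece of `K`. -/
def ext {J : Type u} (κ : Cardinal.{u}) (U : ℕ → Set (I → K)) (e : K × J → K)
    (g : Set (I × K) → I → K) (i : J) (S : Set (I × K)) : Set (I × K) :=
  {p | p.1 ∈ badUnion κ U S ∧ (∀ q ∈ S, q.1 ≠ p.1) ∧ p.2 = e (g S p.1, i)}

variable {J : Type u} [LinearOrder J] [WellFoundedLT J]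

/-- The chain of partial injections. -/
noncomputable def chain (κ : Cardinal.{u}) (U : ℕ → Set (I → K)) (e : K × J → K)
    (g : Set (I × K) → I → K) : J → Set (I × K) :=
  (wellFounded_lt (α := J)).fix fun j rec => {p | ∃ (i : J) (hi : i < j), p ∈ ext κ U e g i (rec i hi)}

theorem mem_chain {U : ℕ → Set (I → K)} {e : K × J → K} {g : Set (I × K) → I → K} {j : J}
    {p : I × K} : p ∈ chain κ U e g j ↔ ∃ i < j, p ∈ ext κ U e g i (chain κ U e g i) := by
  unfold chain
  rw [WellFounded.fix_eq]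
  simp

/-- The union of the chain. -/
def total (κ : Cardinal.{u}) (U : ℕ → Set (I → K)) (e : K × J → K)
    (g : Set (I × K) → I → K) : Set (I × K) :=
  {p | ∃ i, p ∈ ext κ U e g i (chain κ U e g i)}

theorem chain_subset_total {U : ℕ → Set (I → K)} {e : K × J → K} {g : Set (I × K) → I → K}
    {j : J} : chain κ U e g j ⊆ total κ U e g := by
  intro p hp
  obtain ⟨i, _, hi⟩ := mem_chain.1 hp
  exact ⟨i, hi⟩

/-- The union of the chain is a partial injection. -/
theorem total_inj {U : ℕ → Set (I → K)} {e : K × J → K} (he : Function.Injective e)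
    {g : Set (I × K) → I → K} (hg : ∀ S, Set.InjOn (g S) (badUnion κ U S)) {p q : I × K}
    (hp : p ∈ total κ U e g) (hq : q ∈ total κ U e g) : p.1 = q.1 ↔ p.2 = q.2 := by
  obtain ⟨i, hi⟩ := hp
  obtain ⟨j, hj⟩ := hq
  have aux : ∀ {p q : I × K} {i j : J}, i < j → p ∈ ext κ U e g i (chain κ U e g i) →
      q ∈ ext κ U e g j (chain κ U e g j) → p.1 ≠ q.1 ∧ p.2 ≠ q.2 := by
    intro p q i j hij hi hj
    refine ⟨hj.2.1 p (mem_chain.2 ⟨i, hij, hi⟩), fun h => ?_⟩
    rw [hi.2.2, hj.2.2] at h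
    exact hij.ne (Prod.ext_iff.1 (he h)).2
  rcases lt_trichotomy i j with h | h | h
  · have := aux h hi hj
    exact ⟨fun h' => absurd h' this.1, fun h' => absurd h' this.2⟩
  · subst h
    constructor
    · intro h'
      rw [hi.2.2, hj.2.2, h']
    · intro h'
      rw [hi.2.2, hj.2.2] at h'
      exact hg _ hi.1 hj.1 (Prod.ext_iff.1 (he h')).1
  · have := aux h hj hi
    exact ⟨fun h' => absurd h'.symm this.1, fun h' => absurd h'.symm this.2⟩

/-- The domain of a partial function. -/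
def dom (S : Set (I × K)) : Set I := Prod.fst '' S

theorem mk_dom_total_le {U : ℕ → Set (I → K)} {e : K × J → K} (he : Function.Injective e)
    {g : Set (I × K) → I → K} (hg : ∀ S, Set.InjOn (g S) (badUnion κ U S)) :
    #(dom (total κ U e g)) ≤ #K := by
  refine (Cardinal.mk_image_le).trans ?_
  refine Cardinal.mk_le_of_injective (f := fun p : total κ U e g => p.1.2) ?_
  intro p q h
  have h1 := (total_inj he hg p.2 q.2).2 h
  exact Subtype.ext (Prod.ext h1 h)

open Classical in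
/-- The total function that extends the partial function `S` by the value `w`. -/
noncomputable def fill (S : Set (I × K)) (w : K) (a : I) : K :=
  if h : ∃ u, (a, u) ∈ S then h.choose else w

theorem fill_of_mem {U : ℕ → Set (I → K)} {e : K × J → K} (he : Function.Injective e)
    {g : Set (I × K) → I → K} (hg : ∀ S, Set.InjOn (g S) (badUnion κ U S)) {w : K}
    {p : I × K} (hp : p ∈ total κ U e g) : fill (total κ U e g) w p.1 = p.2 := by
  have h : ∃ u, (p.1, u) ∈ total κ U e g := ⟨p.2, hp⟩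
  rw [fill, dif_pos h]
  exact (total_inj he hg h.choose_spec hp).1 rfl

theorem fill_of_notMem {S : Set (I × K)} {w : K} {a : I} (ha : a ∉ dom S) :
    fill S w a = w := by
  have h : ¬ ∃ u, (a, u) ∈ S := fun ⟨u, hu⟩ => ha ⟨(a, u), hu, rfl⟩
  rw [fill, dif_neg h]

theorem fill_mem_closedSet {U : ℕ → Set (I → K)} {e : K × J → K} (he : Function.Injective e)
    {g : Set (I × K) → I → K} (hg : ∀ S, Set.InjOn (g S) (badUnion κ U S)) (v : ℕ → K)
    (n : ℕ) : fill (total κ U e g) (v n) ∈ closedSet κ I v n := by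
  intro a b hab hav
  by_cases ha : a ∈ dom (total κ U e g)
  · by_cases hb : b ∈ dom (total κ U e g)
    · obtain ⟨p, hp, rfl⟩ := ha
      obtain ⟨q, hq, rfl⟩ := hb
      rw [fill_of_mem he hg hp, fill_of_mem he hg hq] at hab
      exact (total_inj he hg hp hq).2 hab
    · rw [hab, fill_of_notMem hb] at hav
      exact absurd rfl hav
  · rw [fill_of_notMem ha] at hav
    exact absurd rfl hav

end chain

section main

variable {κ : Cardinal.{u}} {I K : Type u}

theorem exists_good (hκ : ℵ₀ ≤ κ) {U : ℕ → Set (BoxPower κ I K)} (hU : ∀ n, IsOpen (U n))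
    {v : ℕ → K} (hUF : ∀ n, closedSet κ I v n ⊆ U n) {e : K × κ.ord.ToType → K}
    (he : Function.Injective e) {g : Set (I × K) → I → K}
    (hg : ∀ S, Set.InjOn (g S) (badUnion κ U S)) (n : ℕ) :
    ∃ j, Good κ (U n) (chain κ U e g j) := by
  by_contra hcon
  have hbad : ∀ j, ¬ Good κ (U n) (chain κ U e g j) := fun j hj => hcon ⟨j, hj⟩
  obtain ⟨D, hD, hDU⟩ :=
    exists_basicSet_subset hκ (hU n) (hUF n (fill_mem_closedSet he hg v n))
  obtain ⟨μ, hμ, hDμ, hμκ⟩ : ∃ μ : Cardinal.{u}, μ.IsRegular ∧ #D < μ ∧ μ ≤ κ := by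
    rcases lt_or_ge #D ℵ₀ with h | h
    · exact ⟨ℵ₀, isRegular_aleph0, h, hκ⟩
    · exact ⟨Order.succ #D, isRegular_succ h, Order.lt_succ _, Order.succ_le_of_lt hD⟩
  let early : Set (I × K) := {p | ∃ i : κ.ord.ToType,
    ((Ordinal.ToType.toOrd i : Set.Iio κ.ord) : Ordinal.{u}) < μ.ord ∧
      p ∈ ext κ U e g i (chain κ U e g i)}
  have hstage : ∀ a : {a : I // a ∈ D ∧ a ∈ dom early}, ∃ i : κ.ord.ToType,
      ((Ordinal.ToType.toOrd i : Set.Iio κ.ord) : Ordinal.{u}) < μ.ord ∧
        ∃ p ∈ ext κ U e g i (chain κ U e g i), p.1 = a.1 := by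
    rintro ⟨a, _, ⟨p, ⟨i, hi, hp⟩, rfl⟩⟩
    exact ⟨i, hi, p, hp, rfl⟩
  choose st hst using hstage
  let o : Ordinal.{u} := ⨆ a, Order.succ ((Ordinal.ToType.toOrd (st a) : Set.Iio κ.ord) : Ordinal.{u})
  have hlim : Order.IsSuccLimit μ.ord := Cardinal.isSuccLimit_ord hμ.1
  have ho : o < μ.ord := by
    refine Ordinal.iSup_lt_of_lt_cof ?_ fun a => hlim.succ_lt (hst a).1
    rw [hμ.cof_ord]
    refine lt_of_le_of_lt ?_ hDμ
    exact Cardinal.mk_le_of_injective (f := fun a : {a : I // a ∈ D ∧ a ∈ dom early} =>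
      (⟨a.1, a.2.1⟩ : D)) fun a b h => Subtype.ext (congrArg (fun t : D => (t : I)) h)
  have hoκ : o < κ.ord := lt_of_lt_of_le ho (Cardinal.ord_le_ord.2 hμκ)
  let j : κ.ord.ToType := Ordinal.ToType.mk ⟨o, hoκ⟩
  have hjo : ((Ordinal.ToType.toOrd j : Set.Iio κ.ord) : Ordinal.{u}) = o := by
    simp [j]
  have hstj : ∀ a, st a < j := by
    intro a
    rw [← (Ordinal.ToType.mk (o := κ.ord)).symm.lt_iff_lt, ← Subtype.coe_lt_coe]
    change ((Ordinal.ToType.toOrd (st a) : Set.Iio κ.ord) : Ordinal.{u}) <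
      ((Ordinal.ToType.toOrd j : Set.Iio κ.ord) : Ordinal.{u})
    rw [hjo]
    exact lt_of_lt_of_le (Order.lt_succ _) (Ordinal.le_iSup (fun a => Order.succ
      ((Ordinal.ToType.toOrd (st a) : Set.Iio κ.ord) : Ordinal.{u})) a)
  -- the points of `D` in the domain of the early part are already in the domain of stage `j`
  have hDj : ∀ a ∈ D, a ∈ dom early → ∃ p ∈ chain κ U e g j, p.1 = a := by
    intro a haD hae
    obtain ⟨p, hp, hpa⟩ := (hst ⟨a, haD, hae⟩).2
    exact ⟨p, mem_chain.2 ⟨_, hstj _, hp⟩, hpa⟩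
  have hchain_early : chain κ U e g j ⊆ early := by
    intro p hp
    obtain ⟨i, hij, hi⟩ := mem_chain.1 hp
    refine ⟨i, lt_trans ?_ ho, hi⟩
    have h1 := (Ordinal.ToType.mk (o := κ.ord)).symm.lt_iff_lt.2 hij
    rw [← Subtype.coe_lt_coe] at h1
    rw [← hjo]
    exact h1
  -- apply the witness of badness of stage `j`
  obtain ⟨x, hxS, hxH, hxU⟩ := badSet_spec (hbad j) (D \ dom early)
    (fill (total κ U e g) (v n))
    ((Cardinal.mk_le_mk_of_subset sdiff_subset).trans hD.le) (by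
      rw [Set.disjoint_left]
      rintro a ⟨_, hae⟩ hab
      by_cases hac : ∃ q ∈ chain κ U e g j, q.1 = a
      · obtain ⟨q, hq, rfl⟩ := hac
        exact hae ⟨q, hchain_early hq, rfl⟩
      · have hac' : ∀ q ∈ chain κ U e g j, q.1 ≠ a := fun q hq hqa => hac ⟨q, hq, hqa⟩
        exact hae ⟨(a, e (g (chain κ U e g j) a, j)), ⟨j, hjo ▸ ho,
          ⟨mem_iUnion.2 ⟨n, hab⟩, hac', rfl⟩⟩, rfl⟩)
  refine hxU (hDU fun a haD => ?_)
  by_cases hae : a ∈ dom early
  · obtain ⟨p, hp, rfl⟩ := hDj a haD hae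
    rw [hxS p hp, fill_of_mem he hg (chain_subset_total hp)]
  · exact hxH a ⟨haD, hae⟩

/-- If each `S n`, a subset of the graph of `f`, is good for `U n`, some total function lies in
all the `U n`. -/
theorem exists_mem_all (hκ : ℵ₀ ≤ κ) {U : ℕ → Set (I → K)} {S : ℕ → Set (I × K)}
    {T : Set I} (hT : #T ≤ κ) (f : I → K) (hS : ∀ n, ∀ p ∈ S n, p.1 ∈ T ∧ f p.1 = p.2)
    (hgood : ∀ n, Good κ (U n) (S n)) : ∃ x : I → K, ∀ n, x ∈ U n := by
  classical
  have h0 : ∀ n (Z : {Z : Set I // #Z ≤ κ}), ∃ (H : {H : Set I // #H ≤ κ}) (g : I → K),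
      Disjoint H.1 Z.1 ∧ ∀ x : I → K, Extends x (S n) → (∀ a ∈ H.1, x a = g a) → x ∈ U n := by
    rintro n ⟨Z, hZ⟩
    obtain ⟨H, g, hH, hd, hx⟩ := hgood n Z hZ
    exact ⟨⟨H, hH⟩, g, hd, hx⟩
  choose H g hd hx using h0
  let Z : ℕ → {Z : Set I // #Z ≤ κ} := fun n => Nat.rec ⟨T, hT⟩ (fun n Z =>
    ⟨Z.1 ∪ (H n Z).1, (mk_union_le _ _).trans (Cardinal.add_le_of_le hκ Z.2 (H n Z).2)⟩) n
  have hZ0 : (Z 0).1 = T := rfl
  have hZs : ∀ n, (Z (n + 1)).1 = (Z n).1 ∪ (H n (Z n)).1 := fun n => rfl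
  have hmono : ∀ m n, m ≤ n → (Z m).1 ⊆ (Z n).1 := by
    intro m n hmn
    induction hmn with
    | refl => exact subset_rfl
    | step _ ih => exact ih.trans (by rw [hZs]; exact subset_union_left)
  have hHZ : ∀ m n, m < n → (H m (Z m)).1 ⊆ (Z n).1 := by
    intro m n hmn
    exact (show (H m (Z m)).1 ⊆ (Z (m + 1)).1 by rw [hZs]; exact subset_union_right).trans
      (hmono _ _ hmn)
  have hTZ : ∀ n, T ⊆ (Z n).1 := fun n => hmono 0 n (Nat.zero_le n)
  let x : I → K := fun a => if h : ∃ n, a ∈ (H n (Z n)).1 then g h.choose (Z h.choose) a else f a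
  refine ⟨x, fun n => hx n (Z n) x ?_ ?_⟩
  · intro p hp
    have hpT := (hS n p hp).1
    have hn : ¬ ∃ n, p.1 ∈ (H n (Z n)).1 := by
      rintro ⟨m, hm⟩
      exact Set.disjoint_left.1 (hd m (Z m)) hm (hTZ m hpT)
    simp only [x]
    rw [dif_neg hn]
    exact (hS n p hp).2
  · intro a ha
    have hex : ∃ n, a ∈ (H n (Z n)).1 := ⟨n, ha⟩
    have heq : hex.choose = n := by
      have hc := hex.choose_spec
      rcases lt_trichotomy hex.choose n with h | h | h
      · exact absurd (hHZ _ _ h hc) (Set.disjoint_left.1 (hd n (Z n)) ha)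
      · exact h
      · exact absurd (hHZ _ _ h ha) (Set.disjoint_left.1 (hd _ _) hc)
    simp only [x]
    rw [dif_pos hex, heq]

end main

/-- **Theorem.** For every infinite cardinal `κ`, every set `K` of cardinality `κ` and every
index set `I` of cardinality greater than `κ` (for example `κ⁺`), the `<κ`-box power of the
discrete space `K` over `I` is not metanormal. -/
theorem not_metanormal (κ : Cardinal.{u}) (hκ : ℵ₀ ≤ κ) (I K : Type u) (hK : #K = κ) (hI : κ < #I) :
    ¬ Metanormal (BoxPower κ I K) := by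
  intro hmeta
  have hKinf : Infinite K := by
    rw [Cardinal.infinite_iff, hK]
    exact hκ
  let v : ℕ → K := Infinite.natEmbedding K
  have hv : Function.Injective v := (Infinite.natEmbedding K).injective
  obtain ⟨U, hU, hUF, hfin⟩ := hmeta (closedSet κ I v)
    (fun n => isClosed_closedSet hκ v n) (isDiscreteSeq_closedSet hκ (by rw [hK]; exact hI) hv)
  have hcard : #(K × κ.ord.ToType) = #K := by
    rw [Cardinal.mk_prod, Cardinal.lift_id, Cardinal.lift_id, Cardinal.mk_toType,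
      Cardinal.card_ord, hK, Cardinal.mul_eq_self hκ]
  obtain ⟨e⟩ := Cardinal.eq.1 hcard
  have hg : ∀ S : Set (I × K), ∃ g : I → K, Set.InjOn g (badUnion κ U S) := by
    intro S
    have hle : #(badUnion κ U S) ≤ #K := by
      rw [hK]
      exact mk_badUnion_le hκ U S
    obtain ⟨φ⟩ := Cardinal.le_def _ _ |>.1 hle
    classical
    refine ⟨fun a => if h : a ∈ badUnion κ U S then φ ⟨a, h⟩ else v 0, ?_⟩
    intro a ha b hb hab
    simp only [dif_pos ha, dif_pos hb] at hab
    exact congrArg Subtype.val (φ.injective hab)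
  choose g hg using hg
  have hgood := exists_good hκ hU hUF e.injective hg
  choose j hj using hgood
  obtain ⟨x, hx⟩ := exists_mem_all (T := dom (total κ U e g)) hκ
    ((mk_dom_total_le e.injective hg).trans hK.le) (fill (total κ U e g) (v 0))
    (S := fun n => chain κ U e g (j n))
    (fun n p hp => ⟨⟨p, chain_subset_total hp, rfl⟩,
      fill_of_mem e.injective hg (chain_subset_total hp)⟩) hj
  have huniv : {n : ℕ | x ∈ U n} = Set.univ := Set.eq_univ_of_forall hx
  exact Set.infinite_univ (huniv ▸ hfin x)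

end Pool.Agent.Lib.MP_4cb3df_gt
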